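import Pool.Agent.W670.LL.Stm

set_option autoImplicit false

/-! Project LL (helper670), part S1: generic additivity of `√-3` on `y² = x³ + 6x² - 3x`. -/

namespace Pool.Agent.W89.LL

open Pool.Agent.W670.LL

/-- the images of the points of the line `y = l u + m` (`u = x - 1`) on the curve
`y² = u³ + (3u+2)²` lie on a line -/
theorem line {K : Type} [Field K] (ρ l m u : K) (h3 : (3 : K) ≠ 0) (hρ : ρ ^ 2 = -3)
    (hu : u ≠ 0) (hE : m ^ 2 - 4 ≠ 0)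
    (hc : u ^ 3 - (l ^ 2 - 9) * u ^ 2 + (12 - 2 * l * m) * u - (m ^ 2 - 4) = 0) :
    sy ρ (u + 1) (l * u + m) =
      (l * m ^ 2 + 12 * l - 24 * m) / (ρ * (m ^ 2 - 4)) * sx (u + 1) +
      ((l * m ^ 2 + 12 * l - 24 * m) * l ^ 2 - (m ^ 2 - 4) * l * (l ^ 2 - 9) -
        (m ^ 2 - 4) * m + 32 * m) / (3 * ρ * (m ^ 2 - 4)) := by
  have hρ0 : ρ ≠ 0 := by
    intro h; rw [h] at hρ; apply h3; linear_combination hρ
  have e1 : u + 1 - 1 = u := by ring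
  unfold sy sx
  rw [e1]
  field_simp
  linear_combination (-((24 * m - 16 * l) * u + 32 * m)) * hc

theorem s1 : S_S1 := by
  intro K _ ρ h2 h3 hρ x₁ y₁ x₂ y₂ l x₃ y₃ L hy1 hy2 hne hl hx3 hy3 h11 h21 h31 hsne hL
  have hρ0 : ρ ≠ 0 := by
    intro h; rw [h] at hρ; apply h3; linear_combination hρ
  obtain ⟨u₁, rfl⟩ : ∃ u, x₁ = u + 1 := ⟨x₁ - 1, by ring⟩
  obtain ⟨u₂, rfl⟩ : ∃ u, x₂ = u + 1 := ⟨x₂ - 1, by ring⟩
  obtain ⟨u₃, rfl⟩ : ∃ u, x₃ = u + 1 := ⟨x₃ - 1, by ring⟩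
  obtain ⟨m, rfl⟩ : ∃ m, y₁ = l * u₁ + m := ⟨y₁ - l * u₁, by ring⟩
  have hy2' : y₂ = l * u₂ + m := by linear_combination hl
  subst hy2'
  have hy3' : y₃ = -(l * u₃ + m) := by rw [hy3]; ring
  subst hy3'
  have hu1 : u₁ ≠ 0 := fun h => h11 (by rw [h]; ring)
  have hu2 : u₂ ≠ 0 := fun h => h21 (by rw [h]; ring)
  have hu3 : u₃ ≠ 0 := fun h => h31 (by rw [h]; ring)
  have hu12 : u₁ - u₂ ≠ 0 := by
    intro h; apply hne; linear_combination h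
  have c1 : u₁ ^ 3 - (l ^ 2 - 9) * u₁ ^ 2 + (12 - 2 * l * m) * u₁ - (m ^ 2 - 4) = 0 := by
    linear_combination -hy1
  have c2 : u₂ ^ 3 - (l ^ 2 - 9) * u₂ ^ 2 + (12 - 2 * l * m) * u₂ - (m ^ 2 - 4) = 0 := by
    linear_combination -hy2
  have e1 : u₃ = l ^ 2 - 9 - u₁ - u₂ := by linear_combination hx3
  have e2 : 12 - 2 * l * m = u₁ * u₂ + u₃ * (u₁ + u₂) := by
    apply mul_left_cancel₀ hu12
    rw [e1]
    linear_combination c1 - c2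
  have e3 : m ^ 2 - 4 = u₁ * u₂ * u₃ := by
    have h := c1
    rw [e2] at h
    rw [e1] at h ⊢
    linear_combination -h
  have c3 : u₃ ^ 3 - (l ^ 2 - 9) * u₃ ^ 2 + (12 - 2 * l * m) * u₃ - (m ^ 2 - 4) = 0 := by
    have h : l ^ 2 - 9 = u₁ + u₂ + u₃ := by rw [e1]; ring
    rw [e2, e3, h]; ring
  have hE : m ^ 2 - 4 ≠ 0 := by
    rw [e3]; exact mul_ne_zero (mul_ne_zero hu1 hu2) hu3
  have l1 := line ρ l m u₁ h3 hρ hu1 hE c1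
  have l2 := line ρ l m u₂ h3 hρ hu2 hE c2
  have l3 := line ρ l m u₃ h3 hρ hu3 hE c3
  have hLL : L = (l * m ^ 2 + 12 * l - 24 * m) / (ρ * (m ^ 2 - 4)) := by
    apply mul_right_cancel₀ (sub_ne_zero.2 hsne)
    rw [hL, l1, l2]; ring
  have hneg : sy ρ (u₃ + 1) (-(l * u₃ + m)) = -sy ρ (u₃ + 1) (l * u₃ + m) := by
    unfold sy; ring
  refine ⟨?_, ?_⟩
  · have hL2 : L ^ 2 = -((l * m ^ 2 + 12 * l - 24 * m) ^ 2 / (3 * (m ^ 2 - 4) ^ 2)) := by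
      rw [hLL, div_pow, mul_pow, hρ]; field_simp
    have hsum : sx (u₁ + 1) + sx (u₂ + 1) + sx (u₃ + 1) =
        -((l * m ^ 2 + 12 * l - 24 * m) ^ 2 / (3 * (m ^ 2 - 4) ^ 2)) - 6 := by
      have hs : ∀ u : K, u ≠ 0 → u ^ 3 - (l ^ 2 - 9) * u ^ 2 + (12 - 2 * l * m) * u - (m ^ 2 - 4) = 0 →
          sx (u + 1) = -(u + 9 + 24 * u⁻¹ + 16 * (u⁻¹) ^ 2) / 3 := by
        intro u hu hc
        unfold sx
        have : u + 1 - 1 = u := by ring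
        rw [this]
        field_simp
        ring
      rw [hs u₁ hu1 c1, hs u₂ hu2 c2, hs u₃ hu3 c3]
      have t1 : u₁⁻¹ + u₂⁻¹ + u₃⁻¹ = (12 - 2 * l * m) / (m ^ 2 - 4) := by
        rw [e2, e3]; field_simp; ring
      have t2 : (u₁⁻¹) ^ 2 + (u₂⁻¹) ^ 2 + (u₃⁻¹) ^ 2 =
          ((12 - 2 * l * m) / (m ^ 2 - 4)) ^ 2 - 2 * (l ^ 2 - 9) / (m ^ 2 - 4) := by
        rw [← t1]
        have h : l ^ 2 - 9 = u₁ + u₂ + u₃ := by rw [e1]; ring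
        rw [h, e3]; field_simp; ring
      have t3 : -(u₁ + 9 + 24 * u₁⁻¹ + 16 * (u₁⁻¹) ^ 2) / 3 +
          -(u₂ + 9 + 24 * u₂⁻¹ + 16 * (u₂⁻¹) ^ 2) / 3 +
          -(u₃ + 9 + 24 * u₃⁻¹ + 16 * (u₃⁻¹) ^ 2) / 3 =
          -((u₁ + u₂ + u₃) + 27 + 24 * (u₁⁻¹ + u₂⁻¹ + u₃⁻¹) +
            16 * ((u₁⁻¹) ^ 2 + (u₂⁻¹) ^ 2 + (u₃⁻¹) ^ 2)) / 3 := by ring
      rw [t3, t1, t2]
      have h : u₁ + u₂ + u₃ = l ^ 2 - 9 := by rw [e1]; ring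
      rw [h]
      field_simp
      ring
    linear_combination hsum - hL2
  · rw [hneg, l3, l1, hLL]; ring

end Pool.Agent.W89.LL
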